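import Pool.Agent.H484.HH.Stm

/-!
# Project HH (helper484), part DEC: decomposition of an arc into tents with majorants
-/

set_option autoImplicit false

open Finset

namespace Pool.Agent.H935.HHDEC

open Pool.Agent.H484.HH

noncomputable section

/-- the ramp `min(1, (y+1)/n)` -/
def R (n y : ℕ) : ℝ := ((min n (y + 1) : ℕ) : ℝ) / n

lemma R_one (y : ℕ) : R 1 y = 1 := by
  simp [R]

lemma R_nonneg (n y : ℕ) : 0 ≤ R n y := by unfold R; positivity

lemma R_eq_one {n y : ℕ} (hn : 0 < n) (h : n ≤ y + 1) : R n y = 1 := by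
  have hn' : (n : ℝ) ≠ 0 := by positivity
  unfold R
  rw [min_eq_left h, div_self hn']

lemma tent_eq (n y : ℕ) (hn : 0 < n) :
    (2 * (n : ℝ))⁻¹ * ((min n (y + 1) - (y + 1 - n) : ℕ) : ℝ) = R n y - R (2 * n) y := by
  have hn' : (n : ℝ) ≠ 0 := by positivity
  have h : (min n (y + 1) - (y + 1 - n)) + min (2 * n) (y + 1) = 2 * min n (y + 1) := by omega
  unfold R
  generalize min n (y + 1) - (y + 1 - n) = a at h ⊢
  generalize min (2 * n) (y + 1) = b at h ⊢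
  generalize min n (y + 1) = c at h ⊢
  have h' : (a : ℝ) = 2 * c - b := by
    have h2 := congrArg (Nat.cast : ℕ → ℝ) h
    push_cast at h2
    linarith
  rw [h']
  push_cast
  field_simp

lemma trap_eq (n y w ℓ : ℕ) (hn : 0 < n) (h2 : 2 * n ≤ ℓ + 1) (hy : y < ℓ) (hw : w = ℓ - 1 - y) :
    (n : ℝ)⁻¹ * ((min n (y + 1) - (y + 1 - (ℓ + 1 - n)) : ℕ) : ℝ) = R n y + R n w - 1 := by
  have hn' : (n : ℝ) ≠ 0 := by positivity
  have h : (min n (y + 1) - (y + 1 - (ℓ + 1 - n))) + n = min n (y + 1) + min n (w + 1) := by omega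
  unfold R
  generalize min n (y + 1) - (y + 1 - (ℓ + 1 - n)) = a at h ⊢
  generalize min n (y + 1) = b at h ⊢
  generalize min n (w + 1) = c at h ⊢
  have h' : (a : ℝ) = b + c - n := by
    have h2 := congrArg (Nat.cast : ℕ → ℝ) h
    push_cast at h2
    linarith
  rw [h']
  field_simp

lemma val_right (N : ℕ) [NeZero N] (z x : ZMod N) (ℓ q : ℕ) (hℓ : ℓ ≤ N) (hq : q ≤ ℓ) :
    (x - (z + (ℓ : ZMod N) - (q : ZMod N))).val =
      if (x - z).val + q < ℓ then (x - z).val + (N - ℓ) + q else (x - z).val + q - ℓ := by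
  have hy : (x - z).val < N := ZMod.val_lt _
  have h1 : x - (z + (ℓ : ZMod N) - (q : ZMod N)) = (((x - z).val + (N - ℓ) + q : ℕ) : ZMod N) := by
    rw [Nat.cast_add, Nat.cast_add, Nat.cast_sub hℓ, ZMod.natCast_zmod_val, ZMod.natCast_self]
    ring
  rw [h1, ZMod.val_natCast]
  split_ifs with h
  · exact Nat.mod_eq_of_lt (by omega)
  · rw [Nat.mod_eq_sub_mod (by omega), Nat.mod_eq_of_lt (by omega)]
    omega

lemma two_tents (hCF : S_CF) (N : ℕ) [NeZero N] (z x : ZMod N) (ℓ n : ℕ) (hn : 0 < n)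
    (h4 : 4 * n ≤ ℓ + 1) (hℓ : ℓ ≤ N) :
    (2 * (n : ℝ))⁻¹ * (conv z n n x +
        conv (z + (ℓ : ZMod N) - ((2 * n - 1 : ℕ) : ZMod N)) n n x) =
      if (x - z).val < ℓ then
        (R n (x - z).val - R (2 * n) (x - z).val) +
          (R n (ℓ - 1 - (x - z).val) - R (2 * n) (ℓ - 1 - (x - z).val))
      else 0 := by
  have hyN : (x - z).val < N := ZMod.val_lt _
  rw [hCF N z n n (by omega) x, hCF N _ n n (by omega) x,
    val_right N z x ℓ (2 * n - 1) hℓ (by omega)]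
  generalize (x - z).val = y at hyN ⊢
  split_ifs with h1 h2 h2
  · have e : min n (y + (N - ℓ) + (2 * n - 1) + 1) - (y + (N - ℓ) + (2 * n - 1) + 1 - n) =
        min n ((ℓ - 1 - y) + 1) - ((ℓ - 1 - y) + 1 - n) := by omega
    rw [mul_add, e, tent_eq n y hn, tent_eq n _ hn]
  · have e1 : min n (y + 1) - (y + 1 - n) = 0 := by omega
    have e2 : min n (y + (N - ℓ) + (2 * n - 1) + 1) - (y + (N - ℓ) + (2 * n - 1) + 1 - n) = 0 := by
      omega
    rw [e1, e2]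
    simp
  · have e : min n (y + (2 * n - 1) - ℓ + 1) - (y + (2 * n - 1) - ℓ + 1 - n) =
        min n ((ℓ - 1 - y) + 1) - ((ℓ - 1 - y) + 1 - n) := by omega
    rw [mul_add, e, tent_eq n y hn, tent_eq n _ hn]
  · have e1 : min n (y + 1) - (y + 1 - n) = 0 := by omega
    have e2 : min n (y + (2 * n - 1) - ℓ + 1) - (y + (2 * n - 1) - ℓ + 1 - n) = 0 := by omega
    rw [e1, e2]
    simp

lemma trapezoid (hCF : S_CF) (N : ℕ) [NeZero N] (z x : ZMod N) (ℓ n : ℕ) (hn : 0 < n)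
    (h2 : 2 * n ≤ ℓ + 1) (hℓ : ℓ ≤ N) :
    (n : ℝ)⁻¹ * conv z n (ℓ + 1 - n) x =
      if (x - z).val < ℓ then R n (x - z).val + R n (ℓ - 1 - (x - z).val) - 1 else 0 := by
  rw [hCF N z n (ℓ + 1 - n) (by omega) x]
  generalize (x - z).val = y
  split_ifs with h
  · exact trap_eq n y _ ℓ hn h2 h rfl
  · have e1 : min n (y + 1) - (y + 1 - (ℓ + 1 - n)) = 0 := by omega
    rw [e1]
    simp

lemma conv_nonneg (N : ℕ) [NeZero N] (z : ZMod N) (n n' : ℕ) (x : ZMod N) : 0 ≤ conv z n n' x := by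
  unfold conv
  refine Finset.sum_nonneg fun i _ => Finset.sum_nonneg fun i' _ => ?_
  split_ifs <;> norm_num

/-- the pieces -/
def FF (N : ℕ) [NeZero N] (z : ZMod N) (ℓ J : ℕ) (i : ℕ) (x : ZMod N) : ℝ :=
  if i < J then
    (2 * ((2 ^ i : ℕ) : ℝ))⁻¹ * (conv z (2 ^ i) (2 ^ i) x +
      conv (z + (ℓ : ZMod N) - ((2 * 2 ^ i - 1 : ℕ) : ZMod N)) (2 ^ i) (2 ^ i) x)
  else if i = J then ((2 ^ J : ℕ) : ℝ)⁻¹ * conv z (2 ^ J) (ℓ + 1 - 2 ^ J) x
  else 0

/-- the majorants -/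
def PP (N : ℕ) [NeZero N] (z : ZMod N) (ℓ J : ℕ) (j : ℕ) (x : ZMod N) : ℝ :=
  if j < J then
    (2 * ((2 ^ j : ℕ) : ℝ))⁻¹ *
      (conv (z - (((2 * 2 ^ j : ℕ) : ZMod N) - 1)) (2 * 2 ^ j) (2 * (2 * 2 ^ j)) x +
      conv ((z + (ℓ : ZMod N) - ((2 * 2 ^ j : ℕ) : ZMod N)) - (((2 * 2 ^ j : ℕ) : ZMod N) - 1))
        (2 * 2 ^ j) (2 * (2 * 2 ^ j)) x)
  else
    (4 * ((2 ^ j : ℕ) : ℝ))⁻¹ *
      conv (z - (((4 * 2 ^ j : ℕ) : ZMod N) - 1)) (4 * 2 ^ j) (2 * (4 * 2 ^ j)) x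

lemma FF_nonneg (N : ℕ) [NeZero N] (z : ZMod N) (ℓ J i : ℕ) (x : ZMod N) :
    0 ≤ FF N z ℓ J i x := by
  unfold FF
  split_ifs
  · exact mul_nonneg (by positivity) (add_nonneg (conv_nonneg _ _ _ _ _) (conv_nonneg _ _ _ _ _))
  · exact mul_nonneg (by positivity) (conv_nonneg _ _ _ _ _)
  · exact le_rfl

lemma sum_lt (hCF : S_CF) (N : ℕ) [NeZero N] (z x : ZMod N) (ℓ J : ℕ) (hJ : 2 * 2 ^ J ≤ ℓ + 1)
    (hℓ : ℓ ≤ N) (j : ℕ) (hj : j ≤ J) :
    ∑ i ∈ range j, FF N z ℓ J i x =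
      if (x - z).val < ℓ then
        (1 - R (2 ^ j) (x - z).val) + (1 - R (2 ^ j) (ℓ - 1 - (x - z).val))
      else 0 := by
  induction j with
  | zero =>
    simp [R_one]
  | succ j ih =>
    have hjJ : j < J := hj
    have h4 : 4 * 2 ^ j ≤ ℓ + 1 := by
      have h1 : 2 ^ (j + 1) ≤ 2 ^ J := Nat.pow_le_pow_right (by norm_num) hjJ
      have h2 : 2 ^ (j + 1) = 2 * 2 ^ j := by ring
      omega
    rw [Finset.sum_range_succ, ih hjJ.le]
    have hF : FF N z ℓ J j x = if (x - z).val < ℓ then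
        (R (2 ^ j) (x - z).val - R (2 * 2 ^ j) (x - z).val) +
          (R (2 ^ j) (ℓ - 1 - (x - z).val) - R (2 * 2 ^ j) (ℓ - 1 - (x - z).val))
      else 0 := by
      unfold FF
      rw [if_pos hjJ]
      exact two_tents hCF N z x ℓ (2 ^ j) (by positivity) h4 hℓ
    rw [hF]
    have h2 : 2 ^ (j + 1) = 2 * 2 ^ j := by ring
    rw [h2]
    split_ifs
    · ring
    · ring

lemma sum_ge (hCF : S_CF) (N : ℕ) [NeZero N] (z x : ZMod N) (ℓ J : ℕ) (hJ : 2 * 2 ^ J ≤ ℓ + 1)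
    (hℓ : ℓ ≤ N) (j : ℕ) (hj : J + 1 ≤ j) :
    ∑ i ∈ range j, FF N z ℓ J i x = if (x - z).val < ℓ then 1 else 0 := by
  induction j, hj using Nat.le_induction with
  | base =>
    rw [Finset.sum_range_succ, sum_lt hCF N z x ℓ J hJ hℓ J le_rfl]
    have hF : FF N z ℓ J J x = if (x - z).val < ℓ then
        R (2 ^ J) (x - z).val + R (2 ^ J) (ℓ - 1 - (x - z).val) - 1 else 0 := by
      unfold FF
      rw [if_neg (lt_irrefl J), if_pos rfl]
      exact trapezoid hCF N z x ℓ (2 ^ J) (by positivity) hJ hℓ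
    rw [hF]
    split_ifs
    · ring
    · ring
  | succ j hj ih =>
    rw [Finset.sum_range_succ, ih]
    have hF : FF N z ℓ J j x = 0 := by
      unfold FF
      rw [if_neg (by omega), if_neg (by omega)]
    rw [hF, add_zero]

lemma le_PP (hCL : S_CL) (N : ℕ) [NeZero N] (z x : ZMod N) (c : ℝ) (m : ℕ) (hm : 0 < m)
    (hc : c = m) (h : (x - z).val ≤ m) :
    1 ≤ c⁻¹ * conv (z - ((m : ZMod N) - 1)) m (2 * m) x := by
  have h1 := hCL N z m hm x h
  have hm' : (0 : ℝ) < m := by exact_mod_cast hm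
  rw [hc, inv_mul_eq_div, le_div_iff₀ hm', one_mul]
  exact h1

lemma sum_le_PP (hCF : S_CF) (hCL : S_CL) (N : ℕ) [NeZero N] (z x : ZMod N) (ℓ J : ℕ)
    (hJ : 2 * 2 ^ J ≤ ℓ + 1) (hJ2 : ℓ < 4 * 2 ^ J) (hℓ : ℓ ≤ N) (j : ℕ) :
    ∑ i ∈ range (j + 1), FF N z ℓ J i x ≤ PP N z ℓ J j x := by
  have hyN : (x - z).val < N := ZMod.val_lt _
  by_cases hj : j < J
  · rw [sum_lt hCF N z x ℓ J hJ hℓ (j + 1) hj]
    have hm : 2 ^ (j + 1) = 2 * 2 ^ j := by ring
    rw [hm]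
    unfold PP
    rw [if_pos hj, mul_add]
    have h2j : 2 * 2 ^ j ≤ 2 ^ J := by
      rw [← hm]
      exact Nat.pow_le_pow_right (by norm_num) hj
    have hpos : 0 < 2 * 2 ^ j := by positivity
    have hA : (if (x - z).val < ℓ then 1 - R (2 * 2 ^ j) (x - z).val else 0) ≤
        (2 * ((2 ^ j : ℕ) : ℝ))⁻¹ *
          conv (z - (((2 * 2 ^ j : ℕ) : ZMod N) - 1)) (2 * 2 ^ j) (2 * (2 * 2 ^ j)) x := by
      by_cases h : (x - z).val ≤ 2 * 2 ^ j
      · have h1 := le_PP hCL N z x (2 * ((2 ^ j : ℕ) : ℝ)) (2 * 2 ^ j) hpos (by push_cast; ring) h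
        refine le_trans ?_ h1
        split_ifs
        · linarith [R_nonneg (2 * 2 ^ j) (x - z).val]
        · norm_num
      · rw [R_eq_one hpos (by omega)]
        refine le_trans ?_ (mul_nonneg (by positivity) (conv_nonneg _ _ _ _ _))
        split_ifs <;> norm_num
    have hB : (if (x - z).val < ℓ then 1 - R (2 * 2 ^ j) (ℓ - 1 - (x - z).val) else 0) ≤
        (2 * ((2 ^ j : ℕ) : ℝ))⁻¹ *
          conv ((z + (ℓ : ZMod N) - ((2 * 2 ^ j : ℕ) : ZMod N)) - (((2 * 2 ^ j : ℕ) : ZMod N) - 1))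
            (2 * 2 ^ j) (2 * (2 * 2 ^ j)) x := by
      by_cases hy : (x - z).val < ℓ
      · rw [if_pos hy]
        by_cases h : 2 * 2 ^ j ≤ ℓ - 1 - (x - z).val + 1
        · rw [R_eq_one hpos h]
          refine le_trans ?_ (mul_nonneg (by positivity) (conv_nonneg _ _ _ _ _))
          norm_num
        · have hv : (x - (z + (ℓ : ZMod N) - ((2 * 2 ^ j : ℕ) : ZMod N))).val ≤ 2 * 2 ^ j := by
            rw [val_right N z x ℓ (2 * 2 ^ j) hℓ (by omega), if_neg (by omega)]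
            omega
          have h1 := le_PP hCL N _ x (2 * ((2 ^ j : ℕ) : ℝ)) (2 * 2 ^ j) hpos (by push_cast; ring) hv
          refine le_trans ?_ h1
          linarith [R_nonneg (2 * 2 ^ j) (ℓ - 1 - (x - z).val)]
      · rw [if_neg hy]
        exact mul_nonneg (by positivity) (conv_nonneg _ _ _ _ _)
    refine le_trans (le_of_eq ?_) (add_le_add hA hB)
    split_ifs
    · rfl
    · ring
  · rw [sum_ge hCF N z x ℓ J hJ hℓ (j + 1) (by omega)]
    unfold PP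
    rw [if_neg hj]
    by_cases hy : (x - z).val < ℓ
    · rw [if_pos hy]
      have h1 : 2 ^ J ≤ 2 ^ j := Nat.pow_le_pow_right (by norm_num) (by omega)
      exact le_PP hCL N z x (4 * ((2 ^ j : ℕ) : ℝ)) (4 * 2 ^ j) (by positivity) (by push_cast; ring)
        (by omega)
    · rw [if_neg hy]
      exact mul_nonneg (by positivity) (conv_nonneg _ _ _ _ _)

lemma ft_smul_add (N : ℕ) [NeZero N] (c : ℝ) (f g : ZMod N → ℝ) (k : ZMod N) :
    ft (fun x => c * (f x + g x)) k = (c : ℂ) * (ft f k + ft g k) := by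
  unfold ft
  rw [← Finset.sum_add_distrib, Finset.mul_sum]
  refine Finset.sum_congr rfl fun x _ => ?_
  push_cast
  ring

lemma ft_smul (N : ℕ) [NeZero N] (c : ℝ) (f : ZMod N → ℝ) (k : ZMod N) :
    ft (fun x => c * f x) k = (c : ℂ) * ft f k := by
  unfold ft
  rw [Finset.mul_sum]
  refine Finset.sum_congr rfl fun x _ => ?_
  push_cast
  ring

lemma W_nonneg (N : ℕ) [NeZero N] (j : ℕ) (k : ZMod N) : 0 ≤ W j k := by
  unfold W
  positivity

lemma two_bd (hCB : S_CB) (N : ℕ) [NeZero N] (z z' k : ZMod N) (j n n' : ℕ) (hj : 2 ^ j ≤ N)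
    (hn : n ≤ 8 * 2 ^ j) (hn' : n' ≤ 8 * 2 ^ j) :
    ‖ft (fun x => (2 * ((2 ^ j : ℕ) : ℝ))⁻¹ * (conv z n n' x + conv z' n n' x)) k‖ ≤
      256 * 2 ^ j * W j k := by
  have h1 := hCB N z k j n n' hj hn hn'
  have h2 := hCB N z' k j n n' hj hn hn'
  rw [ft_smul_add, norm_mul, Complex.norm_real, Real.norm_of_nonneg (by positivity)]
  have h3 : ‖ft (conv z n n') k + ft (conv z' n n') k‖ ≤ 2 * (256 * (2 ^ j) ^ 2 * W j k) :=
    (norm_add_le _ _).trans (by linarith)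
  have hp : (0 : ℝ) < 2 ^ j := by positivity
  calc (2 * ((2 ^ j : ℕ) : ℝ))⁻¹ * ‖ft (conv z n n') k + ft (conv z' n n') k‖
      ≤ (2 * ((2 ^ j : ℕ) : ℝ))⁻¹ * (2 * (256 * (2 ^ j) ^ 2 * W j k)) :=
        mul_le_mul_of_nonneg_left h3 (by positivity)
    _ = 256 * 2 ^ j * W j k := by
        push_cast
        field_simp

lemma one_bd (hCB : S_CB) (N : ℕ) [NeZero N] (z k : ZMod N) (j n n' : ℕ) (c : ℝ) (hj : 2 ^ j ≤ N)
    (hn : n ≤ 8 * 2 ^ j) (hn' : n' ≤ 8 * 2 ^ j) (hc : (2 : ℝ) ^ j ≤ c) :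
    ‖ft (fun x => c⁻¹ * conv z n n' x) k‖ ≤ 256 * 2 ^ j * W j k := by
  have h1 := hCB N z k j n n' hj hn hn'
  have hp : (0 : ℝ) < 2 ^ j := by positivity
  have hcp : 0 < c := hp.trans_le hc
  rw [ft_smul, norm_mul, Complex.norm_real, Real.norm_of_nonneg (by positivity)]
  calc c⁻¹ * ‖ft (conv z n n') k‖ ≤ c⁻¹ * (256 * (2 ^ j) ^ 2 * W j k) :=
        mul_le_mul_of_nonneg_left h1 (by positivity)
    _ ≤ ((2 : ℝ) ^ j)⁻¹ * (256 * (2 ^ j) ^ 2 * W j k) := by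
        refine mul_le_mul_of_nonneg_right (inv_anti₀ hp hc) ?_
        have := W_nonneg N j k
        positivity
    _ = 256 * 2 ^ j * W j k := by field_simp

end

end Pool.Agent.H935.HHDEC

namespace Pool.Agent.H484.HH

open Pool.Agent.H935.HHDEC

theorem t_DEC (hCB : S_CB) (hCF : S_CF) (hCL : S_CL) : S_DEC := by
  intro N _ z ℓ hℓ
  have hlog : ∀ j ≤ Nat.log 2 N, 2 ^ j ≤ N := fun j hj =>
    Nat.pow_le_of_le_log (NeZero.ne N) hj
  rcases Nat.eq_zero_or_pos ℓ with h0 | hpos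
  · subst h0
    have hft : ∀ k : ZMod N, ft (fun _ : ZMod N => (0 : ℝ)) k = 0 := by
      intro k
      simp [ft]
    refine ⟨fun _ _ => 0, fun _ _ => 0, ?_, ?_, ?_, ?_, ?_⟩
    · intro x
      simp [arc]
    · intro j x
      exact le_rfl
    · intro j _ k
      rw [hft, norm_zero]
      have := W_nonneg N j k
      positivity
    · intro j _ x
      simp
    · intro j _ k
      rw [hft, norm_zero]
      have := W_nonneg N j k
      positivity
  · obtain ⟨J, hJ1, hJ2⟩ : ∃ J, 2 * 2 ^ J ≤ ℓ + 1 ∧ ℓ + 1 < 4 * 2 ^ J := by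
      have h1 : 1 ≤ Nat.log 2 (ℓ + 1) :=
        Nat.le_log_of_pow_le (by norm_num) (by omega)
      refine ⟨Nat.log 2 (ℓ + 1) - 1, ?_, ?_⟩
      · have h2 : 2 ^ Nat.log 2 (ℓ + 1) ≤ ℓ + 1 := Nat.pow_log_le_self 2 (by omega)
        have h3 : 2 ^ Nat.log 2 (ℓ + 1) = 2 * 2 ^ (Nat.log 2 (ℓ + 1) - 1) := by
          rw [← pow_succ']
          congr 1
          omega
        omega
      · have h2 : ℓ + 1 < 2 ^ (Nat.log 2 (ℓ + 1) + 1) := Nat.lt_pow_succ_log_self (by norm_num) _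
        have h3 : 2 ^ (Nat.log 2 (ℓ + 1) + 1) = 4 * 2 ^ (Nat.log 2 (ℓ + 1) - 1) := by
          have h4 : Nat.log 2 (ℓ + 1) + 1 = (Nat.log 2 (ℓ + 1) - 1) + 2 := by omega
          rw [h4, pow_add]
          ring
        omega
    have hJN : J ≤ Nat.log 2 N := Nat.le_log_of_pow_le (by norm_num) (by omega)
    refine ⟨FF N z ℓ J, PP N z ℓ J, ?_, ?_, ?_, ?_, ?_⟩
    · intro x
      rw [sum_ge hCF N z x ℓ J hJ1 hℓ _ (by omega)]
      rfl
    · exact fun j x => FF_nonneg N z ℓ J j x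
    · intro j hj k
      by_cases h1 : j < J
      · have hF : FF N z ℓ J j = fun x => (2 * ((2 ^ j : ℕ) : ℝ))⁻¹ * (conv z (2 ^ j) (2 ^ j) x +
            conv (z + (ℓ : ZMod N) - ((2 * 2 ^ j - 1 : ℕ) : ZMod N)) (2 ^ j) (2 ^ j) x) := by
          funext x
          unfold FF
          rw [if_pos h1]
        rw [hF]
        exact two_bd hCB N _ _ k j _ _ (hlog j hj) (by omega) (by omega)
      · by_cases h2 : j = J
        · subst h2
          have hF : FF N z ℓ j j = fun x => ((2 ^ j : ℕ) : ℝ)⁻¹ *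
              conv z (2 ^ j) (ℓ + 1 - 2 ^ j) x := by
            funext x
            unfold FF
            rw [if_neg h1, if_pos rfl]
          rw [hF]
          exact one_bd hCB N _ k j _ _ _ (hlog j hj) (by omega) (by omega) (by push_cast; exact le_rfl)
        · have hF : FF N z ℓ J j = fun _ => 0 := by
            funext x
            unfold FF
            rw [if_neg h1, if_neg h2]
          have hft : ft (fun _ : ZMod N => (0 : ℝ)) k = 0 := by
            simp [ft]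
          rw [hF, hft, norm_zero]
          have := W_nonneg N j k
          positivity
    · intro j _ x
      exact sum_le_PP hCF hCL N z x ℓ J hJ1 (by omega) hℓ j
    · intro j hj k
      by_cases h1 : j < J
      · have hP : PP N z ℓ J j = fun x => (2 * ((2 ^ j : ℕ) : ℝ))⁻¹ *
            (conv (z - (((2 * 2 ^ j : ℕ) : ZMod N) - 1)) (2 * 2 ^ j) (2 * (2 * 2 ^ j)) x +
            conv ((z + (ℓ : ZMod N) - ((2 * 2 ^ j : ℕ) : ZMod N)) -
              (((2 * 2 ^ j : ℕ) : ZMod N) - 1)) (2 * 2 ^ j) (2 * (2 * 2 ^ j)) x) := by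
          funext x
          unfold PP
          rw [if_pos h1]
        rw [hP]
        exact two_bd hCB N _ _ k j _ _ (hlog j hj) (by omega) (by omega)
      · have hP : PP N z ℓ J j = fun x => (4 * ((2 ^ j : ℕ) : ℝ))⁻¹ *
            conv (z - (((4 * 2 ^ j : ℕ) : ZMod N) - 1)) (4 * 2 ^ j) (2 * (4 * 2 ^ j)) x := by
          funext x
          unfold PP
          rw [if_neg h1]
        rw [hP]
        refine one_bd hCB N _ k j _ _ _ (hlog j hj) (by omega) (by omega) ?_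
        push_cast
        have : (0 : ℝ) < 2 ^ j := by positivity
        linarith

end Pool.Agent.H484.HH
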